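import Pool.Agent.H816.Mo13

/-!
# Morse functions with isolated singular points: a sharp threshold for the second derivative

By Morse theory the handle decompositions without 1-handles of a closed 4-manifold are given by the
smooth functions with nondegenerate critical points, none of index 1. We consider functions which
have, in addition, finitely many singular points: the function is smooth off the point, and it is
differentiable at the point, with a derivative which is not zero. So singular points are not critical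
points, and for a `C²` function such a point can be removed by an arbitrarily small change of the
function which creates no critical points. The question is how irregular the second derivative has to
be, so that such points have an influence on the critical points.

A gauge is a function like `η(r) = r / log (1/r)`, `η(r) = r²` or `η(r) = e^(-1/r)`. Let `X` be a
smooth Hausdorff manifold of dimension `n ≥ 2`. We prove for each gauge:

1. Removal of saddles. Let `f` be a smooth function on `X` and `S` a finite set of nondegenerate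
   critical points of `f` which are not local extrema, of arbitrary index. Then for every
   neighbourhood `U` of `S` there is a function `g`, equal to `f` off `U`, which is everywhere
   differentiable, smooth off `S`, and has the critical points of `f` except `S`; near each of them
   `g` is equal to `f`. In suitable coordinates around a point of `S` one has
   `|g(z) - T(z)| ≤ C η(|z|)` with a smooth `T`, `dT(0) ≠ 0`, and
   `|D^(k+1) g(z)| ≤ C_k η(|z|)^(-k)` for all `k ≥ 0`. In particular, `D² g = O(1/η)`.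
2. Smoothing. If instead `g` is a function which is smooth off a finite set `S`, and if in suitable
   coordinates around each point of `S` one has `|g(z) - T(z)| ≤ C η(|z|)` with a smooth `T`,
   `dT(0) ≠ 0`, and `|D² g(z)| = o(1 / η(|z|))`, then there is a smooth function, equal to `g` off any
   given neighbourhood of `S`, which has the same critical points; near them it is equal to `g`.
3. Every closed manifold `X` of dimension `n ≥ 2` has a function as in 1, with finitely many singular
   points, all of whose critical points are nondegenerate local extrema: there are no critical points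
   of index `1, …, n - 1`.
4. For every class `Q` of bilinear forms: a manifold `X` has a smooth function with second derivatives
   in `Q` at all critical points if and only if it has such a function with finitely many singular
   points as in 2.

So a closed 4-manifold has a handle decomposition without 1-handles if and only if it has a function
with finitely many singular points with `D² g = o(1/η)` and with nondegenerate critical points, none of
index 1; while all closed 4-manifolds have such functions with `D² g = O(1/η)`, and even functions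
without critical points of index 1, 2 and 3. By the Morse inequalities the functions in 3 cannot be
replaced by functions as in 2, for any gauge, if `X` is not a homology sphere: so the threshold is sharp.

Proof of 1. One removes a curve which leads from the saddle to a point on its level set by a smooth
isotopy of the complement; after an explicit change of the function along a horn shaped neighbourhood
of the curve of width `η` one obtains a function which is close to a linear one. Proof of 2. By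
interpolation between the two bounds on balls of radius `η(|z|) / δ` the derivative of `g - T` tends
to `0`, and `g` can be interpolated with `T`. Proof of 3. One removes all saddles of a Morse function.
-/

set_option autoImplicit false

open Set Filter Topology Metric Function
open scoped Manifold ContDiff

noncomputable section

namespace Pool.Agent.Results.MP_f18604_gt.SaddleRemoval

/-- Gauges: functions `η`, positive, nondecreasing and smooth on some interval `(0, κ)`, with
`η(r) → 0` and `η'(r) → 0` as `r → 0`, such that the products of the `(k+1)`-st derivative and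
the `k`-th power of `η` are bounded on this interval. -/
def Gauge (η : ℝ → ℝ) : Prop :=
  Tendsto η (𝓝[>] 0) (𝓝 0) ∧ Tendsto (deriv η) (𝓝[>] 0) (𝓝 0) ∧
    ∃ κ : ℝ, 0 < κ ∧ MonotoneOn η (Ioo 0 κ) ∧
      (∀ r ∈ Ioo 0 κ, 0 < η r ∧ ContDiffAt ℝ ∞ η r) ∧
      ∀ k : ℕ, ∃ C : ℝ, ∀ r ∈ Ioo 0 κ, |iteratedDeriv (k + 1) η r| * η r ^ k ≤ C

section defs

variable (E : Type) [NormedAddCommGroup E] [NormedSpace ℝ E]
variable {X : Type} [TopologicalSpace X] [ChartedSpace E X]

/-- Contact of order `η` with a smooth function `T` such that `dT(0) ≠ 0`. -/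
def Contact (η : ℝ → ℝ) (h : E → ℝ) : Prop :=
  ∃ T : E → ℝ, (∀ᶠ z in 𝓝 (0 : E), ContDiffAt ℝ ∞ T z) ∧ fderiv ℝ T 0 ≠ 0 ∧ h 0 = T 0 ∧
    ∃ C : ℝ, ∀ᶠ z in 𝓝[≠] (0 : E), |h z - T z| ≤ C * η ‖z‖

/-- The singularities of the first kind. -/
def BigO (η : ℝ → ℝ) (h : E → ℝ) : Prop :=
  Contact E η h ∧
    ∀ k : ℕ, ∃ C : ℝ, ∀ᶠ z in 𝓝[≠] (0 : E), ‖iteratedFDeriv ℝ (k + 1) h z‖ * η ‖z‖ ^ k ≤ C

/-- The singularities of the second kind. -/
def LittleO (η : ℝ → ℝ) (h : E → ℝ) : Prop :=
  Contact E η h ∧ (∀ᶠ z in 𝓝[≠] (0 : E), ContDiffAt ℝ 2 h z) ∧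
    Tendsto (fun z => ‖iteratedFDeriv ℝ 2 h z‖ * η ‖z‖) (𝓝[≠] (0 : E)) (𝓝 0)

/-- In suitable smooth coordinates `A` around `p` the function has the property `Q`. -/
def InCoordinates (Q : (E → ℝ) → Prop) (g : X → ℝ) (p : X) : Prop :=
  ∃ A : E → X, A 0 = p ∧ IsLocalDiffeomorphAt 𝓘(ℝ, E) 𝓘(ℝ, E) ∞ A 0 ∧ Q fun z => g (A z)

/-- The function `g` is of class `C^∞` at the points off `S`, and it has the property `Q` in suitable
coordinates around the points of `S`. -/
def SingularOn (Q : (E → ℝ) → Prop) (S : Set X) (g : X → ℝ) : Prop :=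
  (∀ x, x ∉ S → ContMDiffAt 𝓘(ℝ, E) 𝓘(ℝ, ℝ) ∞ g x) ∧ ∀ p ∈ S, InCoordinates E Q g p

/-- The derivative of `g` at `x`, in the preferred chart at `x`. -/
def D (g : X → ℝ) (x : X) : E →L[ℝ] ℝ :=
  fderiv ℝ (g ∘ (extChartAt 𝓘(ℝ, E) x).symm) (extChartAt 𝓘(ℝ, E) x x)

/-- The second derivative of `g` at `x`, in the preferred chart at `x`. -/
def D2 (g : X → ℝ) (x : X) : E →L[ℝ] E →L[ℝ] ℝ :=
  fderiv ℝ (fderiv ℝ (g ∘ (extChartAt 𝓘(ℝ, E) x).symm)) (extChartAt 𝓘(ℝ, E) x x)

/-- The critical points. -/
def crit (g : X → ℝ) : Set X := {x | D E g x = 0}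

/-- The function is everywhere differentiable, and its derivative is not zero on `S`. -/
def RegularOn (S : Set X) (g : X → ℝ) : Prop :=
  MDifferentiable 𝓘(ℝ, E) 𝓘(ℝ, ℝ) g ∧ ∀ p ∈ S, D E g p ≠ 0

/-- `f` is equal to `g` off `U` and near the critical points of `f`. -/
def Agree (U : Set X) (f g : X → ℝ) : Prop :=
  (∀ x, x ∉ U → f x = g x) ∧ ∀ x ∈ crit E f, f =ᶠ[𝓝 x] g

variable {E}

/-- The bilinear form `B` is nondegenerate. -/
def Nondeg (B : E →L[ℝ] E →L[ℝ] ℝ) : Prop := ∀ v, (∀ w, B v w = 0) → v = 0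

/-- The bilinear form `B` is positive definite. -/
def PosDef (B : E →L[ℝ] E →L[ℝ] ℝ) : Prop := ∀ v, v ≠ 0 → 0 < B v v

/-- The bilinear form `B` is nondegenerate, and positive or negative definite. -/
def Definite (B : E →L[ℝ] E →L[ℝ] ℝ) : Prop := Nondeg B ∧ (PosDef B ∨ PosDef (-B))

/-- The bilinear form `B` is nondegenerate and indefinite. -/
def Indefinite (B : E →L[ℝ] E →L[ℝ] ℝ) : Prop :=
  Nondeg B ∧ (∃ v, 0 < B v v) ∧ ∃ v, B v v < 0

variable (E) (X)

/-- 1. Removal of nondegenerate saddles. -/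
def RemovalTheorem (η : ℝ → ℝ) : Prop :=
  ∀ (f : X → ℝ) (S U : Set X), ContMDiff 𝓘(ℝ, E) 𝓘(ℝ, ℝ) ∞ f → S.Finite → IsOpen U → S ⊆ U →
    (∀ p ∈ S, D E f p = 0 ∧ Indefinite (D2 E f p)) →
    ∃ g : X → ℝ, SingularOn E (BigO E η) S g ∧ RegularOn E S g ∧ crit E g = crit E f \ S ∧
      Agree E U g f

/-- 2. Smoothing of the singular points of the second kind. -/
def SmoothingTheorem (η : ℝ → ℝ) : Prop :=
  ∀ (g : X → ℝ) (S U : Set X), S.Finite → IsOpen U → S ⊆ U → SingularOn E (LittleO E η) S g →
    RegularOn E S g ∧ ∃ f : X → ℝ, ContMDiff 𝓘(ℝ, E) 𝓘(ℝ, ℝ) ∞ f ∧ crit E f = crit E g ∧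
      Agree E U f g

/-- There is a smooth function with second derivatives in `Q` at the critical points. -/
def HasSmooth (Q : (E →L[ℝ] E →L[ℝ] ℝ) → Prop) : Prop :=
  ∃ f : X → ℝ, ContMDiff 𝓘(ℝ, E) 𝓘(ℝ, ℝ) ∞ f ∧ ∀ x ∈ crit E f, Q (D2 E f x)

/-- There is a function with finitely many singular points as in `P`, everywhere differentiable, with
second derivatives in `Q` at the critical points. -/
def HasSingular (P : (E → ℝ) → Prop) (Q : (E →L[ℝ] E →L[ℝ] ℝ) → Prop) : Prop :=
  ∃ (g : X → ℝ) (S : Set X), S.Finite ∧ SingularOn E P S g ∧ RegularOn E S g ∧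
    ∀ x ∈ crit E g, Q (D2 E g x)

/-- 4. Singular points of the second kind have no influence on the second derivatives at the critical
points. -/
def EquivalenceTheorem (η : ℝ → ℝ) : Prop :=
  ∀ Q : (E →L[ℝ] E →L[ℝ] ℝ) → Prop, HasSmooth E X Q ↔ HasSingular E X (LittleO E η) Q

end defs

/-- The euclidean space `ℝ^n`. -/
abbrev R (n : ℕ) : Type := EuclideanSpace ℝ (Fin n)

/-- The bilinear form `B` on `ℝ⁴` is nondegenerate, and positive definite or negative definite on a
plane: so its index is not `1`. -/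
def NotIndexOne (B : R 4 →L[ℝ] R 4 →L[ℝ] ℝ) : Prop :=
  Nondeg B ∧ (PosDef B ∨ ∃ V : Submodule ℝ (R 4), Module.finrank ℝ V = 2 ∧
    ∀ v ∈ V, v ≠ 0 → B v v < 0)

/-- `M` has a smooth function with nondegenerate critical points, none of index `1`; this is the
conclusion of the frozen statement. -/
def HasMorseNoIndexOne (M : Type) [TopologicalSpace M] [ChartedSpace (R 4) M] : Prop :=
  ∃ f : M → ℝ, ContMDiff 𝓘(ℝ, R 4) 𝓘(ℝ, ℝ) ∞ f ∧
    ∀ x, D (R 4) f x = 0 → NotIndexOne (D2 (R 4) f x)

section proof

open Pool.Agent.H816 Pool.Agent.H816.Fam Pool.Agent.H816.Mo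

theorem gauge_of {η : ℝ → ℝ} (hη : Gauge η) : ∃ κ, Pool.Agent.H816.Gauge η κ := by
  obtain ⟨h1, -, κ, h2, h3, h4, h5⟩ := hη
  exact ⟨κ,
    { κ_pos := h2
      pos := fun r hr hr' => (h4 r ⟨hr, hr'⟩).1
      smooth := fun r hr hr' => (h4 r ⟨hr, hr'⟩).2
      mono := h3
      tend := h1
      bd := fun k => by
        obtain ⟨C, hC⟩ := h5 k
        refine ⟨C, fun r hr hr' => ?_⟩
        rw [norm_iteratedFDeriv_eq_norm_iteratedDeriv, Real.norm_eq_abs]
        exact hC r ⟨hr, hr'⟩ }⟩

theorem gauge_lin {η : ℝ → ℝ} (hη : Gauge η) : Tendsto (fun r => η r / r) (𝓝[>] 0) (𝓝 0) := by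
  obtain ⟨κ, hκ⟩ := gauge_of hη
  have hIoo : ∀ᶠ r in 𝓝[>] (0 : ℝ), r ∈ Ioo 0 κ := Ioo_mem_nhdsGT hκ.κ_pos
  rw [Metric.tendsto_nhds]
  intro ε hε
  obtain ⟨R, hR, -, h⟩ := small_lin hκ.tend
    (hIoo.mono fun r hr => (hκ.smooth r hr.1 hr.2).differentiableAt (by simp)) hη.2.1
    (ε := ε / 2) (by positivity)
  filter_upwards [Ioo_mem_nhdsGT hR] with r hr
  rw [Real.dist_eq, sub_zero, abs_div, abs_of_pos hr.1, div_lt_iff₀ hr.1]
  have := h r hr.1 hr.2
  nlinarith [hr.1]

variable {k : ℕ} {X : Type} [TopologicalSpace X] [ChartedSpace (R (k + 2)) X]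
  [IsManifold 𝓘(ℝ, R (k + 2)) ∞ X] [T2Space X]

theorem contMDiff_sm {f : X → ℝ} (hf : ContMDiff 𝓘(ℝ, R (k + 2)) 𝓘(ℝ, ℝ) ∞ f) (x : X) :
    Sm (R (k + 2)) f x := hf x

theorem removal {η : ℝ → ℝ} (hη : Gauge η) : RemovalTheorem (R (k + 2)) X η := by
  intro f S U hf hS hU hSU hs
  obtain ⟨κ, hκ⟩ := gauge_of hη
  obtain ⟨g, h1, h2⟩ := remove (k := k) hκ (gauge_lin hη) (f := f) hS.toFinset U hU
    (by rwa [hS.coe_toFinset]) (fun x _ => hf x) (fun p hp => by
      have hp' := hS.mem_toFinset.1 hp
      obtain ⟨h3, h4, h5, h6⟩ := hs p hp'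
      exact ⟨h3, h4, h5, h6⟩)
  have h2' : ∀ x, x ∉ S → (x ∈ U ∧ Df (Ek k) f x ≠ 0 ∧ Sm (Ek k) g x ∧ Df (Ek k) g x ≠ 0) ∨
      g =ᶠ[𝓝 x] f := fun x hx => h2 x (by rwa [hS.mem_toFinset])
  have h1' : ∀ p ∈ S, Good (Ek k) η g p := fun p hp => h1 p (hS.mem_toFinset.2 hp)
  have hsm : ∀ x, x ∉ S → Sm (Ek k) g x := by
    intro x hx
    rcases h2' x hx with h | h
    · exact h.2.2.1
    · exact (contMDiff_sm hf x).congr_of_eventuallyEq h
  have hcr : ∀ x ∈ crit (R (k + 2)) g, x ∉ S ∧ g =ᶠ[𝓝 x] f := by
    intro x hx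
    have hxS : x ∉ S := fun h => (h1' x h).2.2 hx
    refine ⟨hxS, ?_⟩
    rcases h2' x hxS with h | h
    · exact absurd hx h.2.2.2
    · exact h
  refine ⟨g, ⟨hsm, fun p hp => ?_⟩, ⟨fun x => ?_, fun p hp => (h1' p hp).2.2⟩, ?_, fun x hx => ?_,
    fun x hx => (hcr x hx).2⟩
  · obtain ⟨A, hA0, hA, hB⟩ := (h1' p hp).1
    exact ⟨A, hA0, hA, hB⟩
  · by_cases hx : x ∈ S
    · exact (h1' x hx).2.1
    · exact ContMDiffAt.mdifferentiableAt (hsm x hx) (by simp)
  · ext x
    constructor
    · intro hx
      obtain ⟨h3, h4⟩ := hcr x hx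
      refine ⟨?_, h3⟩
      show Df (Ek k) f x = 0
      rw [← Df_congr h4]
      exact hx
    · rintro ⟨hx, hxS⟩
      rcases h2' x hxS with h | h
      · exact absurd hx h.2.1
      · show Df (Ek k) g x = 0
        rw [Df_congr h]
        exact hx
  · have hxS : x ∉ S := fun h => hx (hSU h)
    rcases h2' x hxS with h | h
    · exact absurd h.1 hx
    · exact h.self_of_nhds

theorem little_good {η : ℝ → ℝ} (hη : Gauge η) {g : X → ℝ} {p : X}
    (h : InCoordinates (R (k + 2)) (LittleO (R (k + 2)) η) g p) :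
    MDifferentiableAt 𝓘(ℝ, R (k + 2)) 𝓘(ℝ, ℝ) g p ∧ D (R (k + 2)) g p ≠ 0 := by
  obtain ⟨A, hA0, hA, ⟨T, hT⟩, -, -⟩ := h
  have hT' : Cont η (fun z => g (A z)) T := hT
  have h1 := hT'.hasFDerivAt (gauge_lin hη)
  have h2 := md_of (g := g) hA h1.differentiableAt
  have h3 := Df_ne (g := g) hA h1.differentiableAt (by rw [h1.fderiv]; exact hT.2.1)
  rw [hA0] at h2 h3
  exact ⟨h2, h3⟩

theorem smooth_second {η : ℝ → ℝ} (hη : Gauge η) : SmoothingTheorem (R (k + 2)) X η := by
  intro g S U hS hU hSU hs
  obtain ⟨κ, hκ⟩ := gauge_of hη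
  have hreg : RegularOn (R (k + 2)) S g := by
    refine ⟨fun x => ?_, fun p hp => (little_good hη (hs.2 p hp)).2⟩
    by_cases hx : x ∈ S
    · exact (little_good hη (hs.2 x hx)).1
    · exact ContMDiffAt.mdifferentiableAt (hs.1 x hx) (by simp)
  refine ⟨hreg, ?_⟩
  obtain ⟨f, h1, h2⟩ := smoothing (E := Ek k) hκ hη.2.1 (g := g) hS.toFinset U hU
    (by rwa [hS.coe_toFinset]) (fun x _ hxS => hs.1 x (by rwa [hS.mem_toFinset] at hxS))
    (fun p hp => by
      obtain ⟨A, hA0, hA, ⟨T, hT⟩, h5, h6⟩ := hs.2 p (hS.mem_toFinset.1 hp)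
      exact ⟨A, hA0, hA, ⟨T, hT⟩, h5, h6⟩)
  have h2' : ∀ x, x ∉ S → (x ∈ U ∧ Df (Ek k) g x ≠ 0 ∧ Sm (Ek k) f x ∧ Df (Ek k) f x ≠ 0) ∨
      f =ᶠ[𝓝 x] g := fun x hx => h2 x (by rwa [hS.mem_toFinset])
  have h1' : ∀ p ∈ S, Sm (Ek k) f p ∧ Df (Ek k) f p ≠ 0 :=
    fun p hp => h1 p (hS.mem_toFinset.2 hp)
  have hcr : ∀ x ∈ crit (R (k + 2)) f, x ∉ S ∧ f =ᶠ[𝓝 x] g := by
    intro x hx
    have hxS : x ∉ S := fun h => (h1' x h).2 hx
    refine ⟨hxS, ?_⟩
    rcases h2' x hxS with h | h
    · exact absurd hx h.2.2.2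
    · exact h
  refine ⟨f, fun x => ?_, ?_, fun x hx => ?_, fun x hx => (hcr x hx).2⟩
  · by_cases hx : x ∈ S
    · exact (h1' x hx).1
    · rcases h2' x hx with h | h
      · exact h.2.2.1
      · exact (hs.1 x hx).congr_of_eventuallyEq h
  · ext x
    constructor
    · intro hx
      show Df (Ek k) g x = 0
      rw [← Df_congr (hcr x hx).2]
      exact hx
    · intro hx
      have hxS : x ∉ S := fun h => hreg.2 x h hx
      rcases h2' x hxS with h | h
      · exact absurd hx h.2.1
      · show Df (Ek k) f x = 0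
        rw [Df_congr h]
        exact hx
  · have hxS : x ∉ S := fun h => hx (hSU h)
    rcases h2' x hxS with h | h
    · exact absurd h.1 hx
    · exact h.self_of_nhds

theorem iff_second {η : ℝ → ℝ} (hη : Gauge η)
    (Q : (R (k + 2) →L[ℝ] R (k + 2) →L[ℝ] ℝ) → Prop) :
    HasSmooth (R (k + 2)) X Q ↔ HasSingular (R (k + 2)) X (LittleO (R (k + 2)) η) Q := by
  constructor
  · rintro ⟨f, h1, h2⟩
    refine ⟨f, ∅, finite_empty, ⟨fun x _ => h1 x, fun p hp => absurd hp (notMem_empty p)⟩,
      ⟨h1.mdifferentiable (by simp), fun p hp => absurd hp (notMem_empty p)⟩, h2⟩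
  · rintro ⟨g, S, hS, h1, -, h2⟩
    obtain ⟨-, f, h3, h4, -, h6⟩ := smooth_second hη g S univ hS isOpen_univ (subset_univ S) h1
    refine ⟨f, h3, fun x hx => ?_⟩
    have h7 : D2 (R (k + 2)) f x = D2 (R (k + 2)) g x := Hs_congr (h6 x hx)
    rw [h7]
    exact h2 x (h4 ▸ hx)

theorem first_exists [CompactSpace X] {η : ℝ → ℝ} (hη : Gauge η) :
    HasSingular (R (k + 2)) X (BigO (R (k + 2)) η) Definite := by
  obtain ⟨f, h1, h2⟩ := exists_morse (R (k + 2)) X
  have hfin : {x | Df (Ek k) f x = 0}.Finite := finite_crit (fun x => h1 x) h2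
  obtain ⟨S, hSdef⟩ : ∃ S : Set X, S = {x | D (R (k + 2)) f x = 0 ∧ Indefinite (D2 (R (k + 2)) f x)} :=
    ⟨_, rfl⟩
  have hS : S.Finite := by
    rw [hSdef]
    exact hfin.subset fun x hx => hx.1
  obtain ⟨g, g1, g2, g3, g4⟩ := removal hη f S univ h1 hS isOpen_univ (subset_univ S) (by
    rw [hSdef]
    exact fun p hp => hp)
  refine ⟨g, S, hS, g1, g2, fun x hx => ?_⟩
  have hx' : x ∈ crit (R (k + 2)) f \ S := g3 ▸ hx
  have h3 : D2 (R (k + 2)) g x = D2 (R (k + 2)) f x := Hs_congr (g4.2 x hx)
  rw [h3]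
  refine ⟨h2 x hx'.1, ?_⟩
  rcases saddle_or (Eventually.of_forall fun x => h1 x) (h2 x hx'.1) hx'.1 with h | h | h
  · exact absurd (show x ∈ S by rw [hSdef]; exact ⟨h.1, h.2.1, h.2.2.1, h.2.2.2⟩) hx'.2
  · exact Or.inl h
  · refine Or.inr fun v hv => ?_
    have h4 := h v hv
    show 0 < -(D2 (R (k + 2)) f x v v)
    exact neg_pos.2 h4

theorem notIndexOne_of {B : R 4 →L[ℝ] R 4 →L[ℝ] ℝ} (h : Definite B) : NotIndexOne B := by
  refine ⟨h.1, h.2.imp id fun h2 => ?_⟩
  obtain ⟨s, hs, hli⟩ := exists_finset_linearIndependent_of_le_finrank (R := ℝ) (M := R 4) (n := 2)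
    (by simp)
  refine ⟨Submodule.span ℝ (s : Set (R 4)), ?_, fun v _ hv => ?_⟩
  · rw [finrank_span_finset_eq_card hli, hs]
  · have h3 : 0 < -(B v v) := h2 v hv
    linarith

end proof

/-- **Morse functions with isolated singular points: a sharp threshold for the second derivative.**
Let `η` be a gauge. On every smooth Hausdorff manifold of dimension `n ≥ 2` finitely many
nondegenerate saddles of a smooth function can be removed by a change of the function near the
saddles, so that they become singular points with `D² = O(1/η)`, at which the function is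
differentiable and regular; while singular points with `D² = o(1/η)` have no influence on the
critical points. Every closed manifold of dimension `n ≥ 2` has a function with finitely many singular
points of the first kind, all of whose critical points are nondegenerate extrema. A closed 4-manifold
`M` has a function of the first kind without critical points of index 1; it has a smooth Morse
function without critical points of index 1 (the condition of the frozen statement) if and only if it
has a function of the second kind without critical points of index 1. -/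
theorem result (η : ℝ → ℝ) (hη : Gauge η) :
    (∀ (n : ℕ) (X : Type) [TopologicalSpace X] [ChartedSpace (R n) X] [IsManifold 𝓘(ℝ, R n) ∞ X]
      [T2Space X], 2 ≤ n → RemovalTheorem (R n) X η ∧ SmoothingTheorem (R n) X η ∧
        EquivalenceTheorem (R n) X η ∧
        (CompactSpace X → HasSingular (R n) X (BigO (R n) η) Definite)) ∧
    ∀ (M : Type) [TopologicalSpace M] [ChartedSpace (R 4) M] [IsManifold 𝓘(ℝ, R 4) ∞ M]
      [T2Space M] [CompactSpace M],
      HasSingular (R 4) M (BigO (R 4) η) NotIndexOne ∧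
        (HasMorseNoIndexOne M ↔ HasSingular (R 4) M (LittleO (R 4) η) NotIndexOne) := by
  refine ⟨?_, ?_⟩
  · intro n X _ _ _ _ hn
    obtain ⟨k, rfl⟩ : ∃ k, n = k + 2 := ⟨n - 2, by omega⟩
    exact ⟨removal hη, smooth_second hη, fun Q => iff_second hη Q, fun _ => first_exists hη⟩
  · intro M _ _ _ _ _
    refine ⟨?_, iff_second (k := 2) hη NotIndexOne⟩
    obtain ⟨g, S, h1, h2, h3, h4⟩ := first_exists (k := 2) (X := M) hη
    exact ⟨g, S, h1, h2, h3, fun x hx => notIndexOne_of (h4 x hx)⟩

end Pool.Agent.Results.MP_f18604_gt.SaddleRemoval
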